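import Pool.Agent.Q54.TK.StmB

/-!
# Project TK: CCB, COV
-/

set_option autoImplicit false

namespace Pool.Agent.Q209.TK

open Finset Pool.Agent.Q54.TK

/-- every degree of a vertex is at most `(k s)^(k-1)` -/
theorem deg_one {V : Type} [Fintype V] [DecidableEq V] (k s : ℕ) (F : Finset (Finset V))
    (hF : Hyp k s F) : ∀ n : ℕ, ∀ R : Finset V, k - R.card = n → R.card ≤ k → dg F R ≤ (k * s) ^ n := by
  intro n
  induction n with
  | zero =>
    intro R h1 h2
    have h3 : R.card = k := by omega
    rw [pow_zero]
    unfold dg
    rw [card_le_one]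
    intro e he f hf
    rw [mem_filter] at he hf
    have h4 : R = e := Finset.eq_of_subset_of_card_le he.2 (by rw [hF.uf e he.1, h3])
    have h5 : R = f := Finset.eq_of_subset_of_card_le hf.2 (by rw [hF.uf f hf.1, h3])
    rw [← h4, ← h5]
  | succ n ih =>
    intro R h1 h2
    obtain ⟨M, hMF, hM, hMR, hMs⟩ := hF.res R (by omega)
    have hUc : (M.biUnion id).card ≤ k * s := by
      refine (card_biUnion_le).trans ?_
      rw [Finset.sum_congr rfl (fun e he => show (id e : Finset V).card = k from hF.uf e (hMF he))]
      rw [sum_const, hMs, smul_eq_mul, mul_comm]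
    have hsub : F.filter (fun e => R ⊆ e) ⊆
        (M.biUnion id).biUnion (fun x => F.filter (fun e => insert x R ⊆ e)) := by
      intro e he
      rw [mem_filter] at he
      by_contra hcon
      have hno : ∀ f ∈ M, Disjoint e f := by
        intro f hf
        rw [Finset.disjoint_left]
        intro x hxe hxf
        apply hcon
        rw [mem_biUnion]
        refine ⟨x, mem_biUnion.2 ⟨f, hf, hxf⟩, mem_filter.2 ⟨he.1, ?_⟩⟩
        exact Finset.insert_subset hxe he.2
      have heM : e ∉ M := by
        intro heM
        have h := hno e heM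
        rw [disjoint_self_iff_empty] at h
        have h6 := hF.uf e he.1
        rw [h, card_empty] at h6
        have := hF.k2
        omega
      have h7 := hF.nu (insert e M) (Finset.insert_subset he.1 hMF) (by
        intro a ha b hb hab
        rcases mem_insert.1 ha with rfl | ha' <;> rcases mem_insert.1 hb with rfl | hb'
        · exact absurd rfl hab
        · exact hno b hb'
        · exact (hno a ha').symm
        · exact hM a ha' b hb' hab)
      rw [card_insert_of_notMem heM, hMs] at h7
      omega
    unfold dg
    refine (card_le_card hsub).trans (card_biUnion_le.trans ?_)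
    have hx : ∀ x ∈ M.biUnion id, (F.filter (fun e => insert x R ⊆ e)).card ≤ (k * s) ^ n := by
      intro x hx
      rw [mem_biUnion] at hx
      obtain ⟨f, hf, hxf⟩ := hx
      have hxR : x ∉ R := Finset.disjoint_left.1 (hMR f hf) hxf
      have := ih (insert x R) (by rw [card_insert_of_notMem hxR]; omega)
        (by rw [card_insert_of_notMem hxR]; omega)
      exact this
    refine (Finset.sum_le_sum hx).trans ?_
    rw [sum_const, smul_eq_mul, pow_succ, mul_comm]
    exact Nat.mul_le_mul_left _ hUc

theorem qq_pos {V : Type} {k s : ℕ} {F : Finset (Finset V)} (hF : Hyp k s F) : 0 < qq k s := by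
  have h1 := hF.k2
  have h2 := hF.s1
  unfold qq
  have : (0 : ℝ) < (k : ℝ) * s := by
    have h3 : (0 : ℝ) < k := by exact_mod_cast (by omega : 0 < k)
    have h4 : (0 : ℝ) < s := by exact_mod_cast (by omega : 0 < s)
    positivity
  positivity

theorem ld_bd {V : Type} [Fintype V] [DecidableEq V] {k s : ℕ} {F : Finset (Finset V)}
    (hF : Hyp k s F) (v : V) : 0 ≤ ld k s F v ∧ ld k s F v ≤ 1 := by
  have hq := qq_pos hF
  unfold ld
  refine ⟨by positivity, ?_⟩
  rw [div_le_one hq]
  have h1 := deg_one k s F hF (k - 1) {v} (by rw [card_singleton])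
    (by rw [card_singleton]; have := hF.k2; omega)
  unfold qq
  exact_mod_cast h1

theorem ccb : S_CCB := by
  intro V _ _ F k s l hF hl hl1
  have hq := qq_pos hF
  have h1l : (0 : ℝ) < 1 + l := by linarith
  have haa : ∀ v, 0 < aa k s F l v := by
    intro v
    unfold aa
    have : 0 < max (ld k s F v) l := lt_max_of_lt_right hl
    positivity
  have haa2 : ∀ v, l / (1 + l) ≤ aa k s F l v := by
    intro v
    unfold aa
    exact div_le_div_of_nonneg_right (le_max_right _ _) h1l.le
  have hCl : 1 ≤ (1 + l) / l := by
    rw [le_div_iff₀ hl]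
    linarith
  refine ⟨?_, ?_, ?_, ?_, haa, ?_⟩
  · intro e
    unfold cc
    split_ifs
    · have : 0 < ∏ v ∈ e, aa k s F l v := Finset.prod_pos (fun v _ => haa v)
      positivity
    · exact le_refl _
  · intro e
    unfold cc
    split_ifs with he
    · have hp : 0 < ∏ v ∈ e, aa k s F l v := Finset.prod_pos (fun v _ => haa v)
      have hk : (l / (1 + l)) ^ k ≤ ∏ v ∈ e, aa k s F l v := by
        rw [show (l / (1 + l)) ^ k = ∏ v ∈ e, l / (1 + l) by rw [Finset.prod_const, hF.uf e he]]
        exact Finset.prod_le_prod (fun v _ => by positivity) (fun v _ => haa2 v)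
      have hlk : 0 < (l / (1 + l)) ^ k := by positivity
      rw [div_mul_eq_mul_div, one_mul]
      rw [show qq k s * (1 + l) * ∏ v ∈ e, aa k s F l v = qq k s * ((1 + l) * ∏ v ∈ e, aa k s F l v)
        by ring, div_mul_cancel_left₀ hq.ne']
      rw [show (1 + l) / l = (l / (1 + l))⁻¹ by rw [inv_div], inv_pow]
      apply inv_anti₀ hlk
      calc (l / (1 + l)) ^ k ≤ ∏ v ∈ e, aa k s F l v := hk
        _ ≤ (1 + l) * ∏ v ∈ e, aa k s F l v := by nlinarith
    · rw [zero_mul]
      positivity
  · exact one_le_pow₀ hCl
  · intro v
    unfold tt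
    have := ld_bd hF v
    refine ⟨le_max_right _ _, max_le (by linarith) (by linarith)⟩
  · intro v
    unfold tt aa
    rcases le_total (ld k s F v) l with h | h
    · rw [max_eq_right (by linarith : ld k s F v - l ≤ 0), max_eq_right h]
      ring
    · rw [max_eq_left (by linarith : 0 ≤ ld k s F v - l), max_eq_left h]
      field_simp
      ring

theorem cov : S_COV := by
  intro V _ _ F k s ζ hk hF hY T
  classical
  obtain ⟨M, hM, hmax⟩ := Finset.exists_max_image
    ((F.filter (fun e => Disjoint e T)).powerset.filter (fun M => PD M)) Finset.card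
    ⟨∅, mem_filter.2 ⟨by simp, by intro e he; simp at he⟩⟩
  rw [mem_filter, mem_powerset] at hM
  refine ⟨M, fun e he => (mem_filter.1 (hM.1 he)).1, hM.2, fun e he => (mem_filter.1 (hM.1 he)).2, ?_⟩
  have h1 := hY (T ∪ M.biUnion id) (by
    intro e he hdis
    rw [disjoint_union_right] at hdis
    have hno : ∀ f ∈ M, Disjoint e f := by
      intro f hf
      exact hdis.2.mono_right (fun x hx => mem_biUnion.2 ⟨f, hf, hx⟩)
    have heM : e ∉ M := by
      intro heM
      have h := hno e heM
      rw [disjoint_self_iff_empty] at h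
      have h6 := hF e he
      rw [h, card_empty] at h6
      omega
    have h2 := hmax (insert e M) (mem_filter.2 ⟨mem_powerset.2
      (Finset.insert_subset (mem_filter.2 ⟨he, hdis.1⟩) hM.1), by
        intro a ha b hb hab
        rcases mem_insert.1 ha with rfl | ha' <;> rcases mem_insert.1 hb with rfl | hb'
        · exact absurd rfl hab
        · exact hno b hb'
        · exact (hno a ha').symm
        · exact hM.2 a ha' b hb' hab⟩)
    rw [card_insert_of_notMem heM] at h2
    omega)
  have h3 : (T ∪ M.biUnion id).card ≤ T.card + k * M.card := by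
    refine (card_union_le _ _).trans (Nat.add_le_add_left ?_ _)
    refine (card_biUnion_le).trans ?_
    rw [Finset.sum_congr rfl (fun e he => show (id e : Finset V).card = k from
      hF e (mem_filter.1 (hM.1 he)).1)]
    rw [sum_const, smul_eq_mul, mul_comm]
  have h4 : ((T ∪ M.biUnion id).card : ℝ) ≤ T.card + k * M.card := by exact_mod_cast h3
  linarith

end Pool.Agent.Q209.TK
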