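import Pool.Agent.Q54.TK.StmA

/-!
# Project TK: KEEP, CCB, COV
-/

set_option autoImplicit false

namespace Pool.Agent.Q209.TK

open Finset Pool.Agent.Q54.TK

/-- the block of a vertex of an edge of a matching is this edge -/
theorem bl_eq {V : Type} [DecidableEq V] {M : Finset (Finset V)} (hM : PD M) {e : Finset V}
    (he : e ∈ M) {v : V} (hv : v ∈ e) : bl M v = e := by
  unfold bl
  have h1 : M.filter (fun e => v ∈ e) = {e} := by
    ext f
    simp only [mem_filter, mem_singleton]
    constructor
    · rintro ⟨hf, hvf⟩
      by_contra hne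
      exact (Finset.disjoint_left.1 (hM f hf e he hne)) hvf hv
    · rintro rfl
      exact ⟨he, hv⟩
  rw [h1, singleton_biUnion, id, insert_eq_of_mem hv]

theorem keep : S_KEEP := by
  intro V _ _ F M M' T k s C c g hS hM'F hM' hAv
  have hk := hS.hyp.k2
  have hne : ∀ e ∈ F, e.Nonempty := by
    intro e he
    have := hS.hyp.uf e he
    rw [← Finset.card_pos]
    omega
  have hdis : ∀ e ∈ M', ∀ f ∈ M.filter (fun e => e ∉ g), Disjoint e f := by
    intro e he f hf
    rw [mem_filter] at hf
    rw [Finset.disjoint_left]
    intro v hve hvf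
    rcases hAv e he v hve with h | h
    · exact Finset.disjoint_left.1 (hS.av f hf.1) hvf h
    · rw [bl_eq hS.pd hf.1 hvf] at h
      exact hf.2 h
  have hdd : Disjoint M' (M.filter (fun e => e ∉ g)) := by
    rw [Finset.disjoint_left]
    intro e he he'
    have h := hdis e he e he'
    rw [disjoint_self_iff_empty] at h
    have := hne e (hM'F he)
    rw [h] at this
    exact Finset.not_nonempty_empty this
  rw [← card_union_of_disjoint hdd]
  apply hS.hyp.nu
  · intro e he
    rcases mem_union.1 he with h | h
    · exact hM'F h
    · exact hS.sub (mem_filter.1 h).1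
  · intro e he f hf hef
    rcases mem_union.1 he with h | h <;> rcases mem_union.1 hf with h' | h'
    · exact hM' e h f h' hef
    · exact hdis e h f h'
    · exact (hdis f h' e h).symm
    · exact hS.pd e (mem_filter.1 h).1 f (mem_filter.1 h').1 hef

end Pool.Agent.Q209.TK
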